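import Mathlib
import Pool.Agent.H33.LU

set_option autoImplicit false

namespace Pool.Agent.Results.MP_7af562_mp.SixQubit

open Matrix

/-- The Pauli matrices. -/
def pI : Matrix (Fin 2) (Fin 2) ℂ := 1
def pX : Matrix (Fin 2) (Fin 2) ℂ := !![0, 1; 1, 0]
def pY : Matrix (Fin 2) (Fin 2) ℂ := !![0, -Complex.I; Complex.I, 0]
def pZ : Matrix (Fin 2) (Fin 2) ℂ := !![1, 0; 0, -1]

/-- The tensor product a_1 ⊗ ⋯ ⊗ a_n, in the computational basis of n qubits. -/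
def tensor {n : ℕ} (a : Fin n → Matrix (Fin 2) (Fin 2) ℂ) :
    Matrix (Fin n → Fin 2) (Fin n → Fin 2) ℂ := fun x y => ∏ k, a k (x k) (y k)

/-- The qubit permutation operator: (P_π ψ)(x) = ψ(x ∘ π). -/
def permOp {n : ℕ} (π : Equiv.Perm (Fin n)) : Matrix (Fin n → Fin 2) (Fin n → Fin 2) ℂ :=
  fun x y => if y = x ∘ π then 1 else 0

/-- The codespace of the strings g_1, …, g_m. -/
def codespace {n m : ℕ} (g : Fin m → Fin n → Matrix (Fin 2) (Fin 2) ℂ) :
    Set ((Fin n → Fin 2) → ℂ) := {ψ | ∀ i, tensor (g i) *ᵥ ψ = ψ}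

/-- Local unitary equivalence, qubit permutations allowed. -/
def LUEquiv {n : ℕ} (Q Q' : Set ((Fin n → Fin 2) → ℂ)) : Prop :=
  ∃ (U : Fin n → unitaryGroup (Fin 2) ℂ) (π : Equiv.Perm (Fin n)),
    (fun ψ => (tensor (fun k => (U k : Matrix (Fin 2) (Fin 2) ℂ)) * permOp π) *ᵥ ψ) '' Q = Q'

def Splus : Fin 3 → Fin 6 → Matrix (Fin 2) (Fin 2) ℂ :=
  ![![pX, pX, pI, pI, pX, pX], ![pI, pI, pX, pX, pX, pX], ![pZ, pZ, pZ, pZ, pI, pX]]

def Sminus : Fin 3 → Fin 6 → Matrix (Fin 2) (Fin 2) ℂ :=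
  ![![pX, pX, pZ, pX, pI, pI], ![pZ, pZ, pX, pY, pI, pI], ![pI, pZ, pZ, pZ, pX, pX]]

open Pool.Agent.H33.LU

def gA : Fin 3 → Fin 6 → Fin 4 := ![![1, 1, 0, 0, 1, 1], ![0, 0, 1, 1, 1, 1], ![2, 2, 2, 2, 0, 1]]
def gB : Fin 3 → Fin 6 → Fin 4 := ![![1, 1, 2, 1, 0, 0], ![2, 2, 1, 3, 0, 0], ![0, 2, 2, 2, 1, 1]]

lemma eA : codespace Splus = code gA := by
  have : ∀ i, Splus i = fun k => sg (gA i k) := by
    intro i; funext k; fin_cases i <;> fin_cases k <;> rfl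
  ext ψ
  simp only [codespace, code, this, ps]
  rfl

lemma eB : codespace Sminus = code gB := by
  have : ∀ i, Sminus i = fun k => sg (gB i k) := by
    intro i; funext k; fin_cases i <;> fin_cases k <;> rfl
  ext ψ
  simp only [codespace, code, this, ps]
  rfl

lemma cA : Comm gA := by unfold Comm; decide
lemma cB : Comm gB := by unfold Comm; decide

lemma hsB : ∀ p q : Fin 6, p ≠ q → p ≠ 5 → q ≠ 5 →
    ∀ s : Bool × Bool × Bool, s ≠ (false, false, false) → lab gB s p ≠ 0 ∨ lab gB s q ≠ 0 := by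
  decide

theorem result : ¬ LUEquiv (codespace Splus) (codespace Sminus) := by
  rintro ⟨U, π, h⟩
  rw [eA, eB] at h
  by_cases h1 : π 2 ≠ 5 ∧ π 3 ≠ 5
  · exact key gA gB cA cB U π h 0 2 3 0 rfl rfl (by decide)
      (hsB _ _ (fun e => absurd (π.injective e) (by decide)) h1.1 h1.2)
  · have h2 : π 0 ≠ 5 ∧ π 1 ≠ 5 := by
      constructor <;> intro e <;> apply h1 <;> constructor <;> intro f <;>
        exact absurd (π.injective (e.trans f.symm)) (by decide)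
    exact key gA gB cA cB U π h 1 0 1 2 rfl rfl (by decide)
      (hsB _ _ (fun e => absurd (π.injective e) (by decide)) h2.1 h2.2)

end Pool.Agent.Results.MP_7af562_mp.SixQubit
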